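import Pool.Agent.H50.GU.Main
import Pool.Agent.H50.GN.Local

/-!
# Graphs of groups: tameness is local, products with right-angled Artin groups on arbitrary graphs
-/

set_option autoImplicit false

namespace Pool.Agent.H50.GU

open Pool.Agent.H98.FJ

private theorem stab_iff {C W : (G : Type) → [Group G] → Prop} : Stable C W ↔ Pool.Agent.H50.GN.Cls C W := by
  constructor
  · intro h
    exact ⟨h.mem, h.sub, fun G _ hG => (h.roots G hG).1, fun G _ hG x y k hk hxy => (h.roots G hG).2 x y k hk hxy,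
      fun G Q _ _ f hG hf ⟨A, h1, h2, h3⟩ => h.quot G Q f A hG hf ⟨le_top, h1, fun g _ => h2 g⟩ h3⟩
  · intro h
    exact ⟨h.mem, fun G _ hG => ⟨h.tf G hG, fun x y k hk hxy => h.root G hG x y k hk hxy⟩, h.inj,
      fun G Q _ _ f A hG hf h1 h3 => h.quot G Q f hG hf ⟨A, h1.2.1, fun g a ha => h1.2.2 g (Subgroup.mem_top g) a ha, h3⟩⟩

private theorem tm_iff {C : (G : Type) → [Group G] → Prop} {H : Type} [Group H] :
    Tame C H ↔ Pool.Agent.H50.GN.Tame C H := by
  constructor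
  · rintro ⟨W, hW, F, hF, h1, h2⟩
    exact ⟨W, stab_iff.1 hW, F, hF, h1, h2⟩
  · rintro ⟨W, hW, F, hF, h1, h2⟩
    exact ⟨W, stab_iff.2 hW, F, hF, h1, h2⟩

variable {C : (G : Type) → [Group G] → Prop}

theorem tame_local (hC : Inherits C) {H : Type} [Group H] (h : ∀ K : Subgroup H, K.FG → Tame C K) : Tame C H :=
  tm_iff.2 (Pool.Agent.H50.GN.tame_local hC fun K hK => tm_iff.1 (h K hK))

theorem tame_prod_all (hC : Inherits C) (hE : Extension C) (hS : ∀ (G : Type) [Group G], Group.IsSolvable G → C G)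
    {U ι S : Type} [Finite ι] (Γ : SimpleGraph U) (R : ι → Type) [∀ i, Group (R i)] [Group S]
    (hR : ∀ i, NM C (R i)) (hS2 : (TF S ∧ LocNil S) ∨ ∃ n, NTn n S) : Tame C (Raag Γ × (∀ i, R i) × S) := by
  refine tm_iff.2 (Pool.Agent.H50.GN.tame_raag hC Γ fun s => ?_)
  exact tm_iff.1 (tame_prod hC hE hS (Γ.induce (s : Set U)) R hR hS2)

end Pool.Agent.H50.GU
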