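import Pool.Agent.H50.GU.Stmt
import Pool.Agent.H50.GN.Loc
import Pool.Agent.H50.GN.ClsX

/-!
# Graphs of groups: the theorem with the definitions of `Stmt.lean`
-/

set_option autoImplicit false

namespace Pool.Agent.H50.GU

open Pool.Agent.H98.FJ Pool.Agent.H93.TR Pool.Agent.H76.GT
open Subgroup.Commensurable (commensurator)

private theorem vpn_iff (n : ℕ) : ∀ (G : Type) [Group G], VPn n G ↔ Pool.Agent.H75.CX.VPn n G := by
  induction n with
  | zero => exact fun G _ => Iff.rfl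
  | succ n ih =>
    intro G _
    constructor
    · rintro ⟨N, hN, h1, h2⟩
      exact ⟨N, hN, (ih N).1 h1, h2⟩
    · rintro ⟨N, hN, h1, h2⟩
      exact ⟨N, hN, (ih N).2 h1, h2⟩

private theorem lvp {G : Type} [Group G] (h : LVP G) : Pool.Agent.H18.TN.LVP G := by
  intro H hH
  obtain ⟨n, hn⟩ := h H hH
  exact ⟨n, (vpn_iff n H).1 hn⟩

private theorem ntn (n : ℕ) : ∀ (G : Type) [Group G], NTn n G → Pool.Agent.H50.GN.NTn n G := by
  induction n with
  | zero => exact fun G _ h => h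
  | succ n ih =>
    intro G _
    rintro ⟨M, hM, h1, h2⟩
    exact ⟨M, hM, ih _ h1, Or.inr h2⟩

/-- neat groups are torsion-free -/
private theorem ntn_tf (n : ℕ) : ∀ (G : Type) [Group G], NTn n G → TF G := by
  induction n with
  | zero =>
    intro G _ h x k _ _
    have h' : Subsingleton G := h
    exact Subsingleton.elim _ _
  | succ n ih =>
    intro G _
    rintro ⟨M, hM, h1, ⟨r, f, hf⟩, -⟩ x k hk hx
    have h3 : (QuotientGroup.mk x : G ⧸ M) = 1 := by
      refine ih _ h1 _ k hk ?_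
      rw [← QuotientGroup.mk_pow, hx, QuotientGroup.mk_one]
    have h4 : x ∈ M := (QuotientGroup.eq_one_iff x).1 h3
    have h5 : f ⟨x, h4⟩ = 1 := by
      have h6 : f ⟨x, h4⟩ ^ k = 1 := by
        rw [← map_pow]
        have : (⟨x, h4⟩ : M) ^ k = 1 := Subtype.ext hx
        rw [this, map_one]
      have h7 : k • Multiplicative.toAdd (f ⟨x, h4⟩) = 0 := h6
      have hk' : (k : ℚ) ≠ 0 := by exact_mod_cast hk
      have h8 : Multiplicative.toAdd (f ⟨x, h4⟩) = 0 := by
        funext e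
        have h9 := congrFun h7 e
        rw [Pi.smul_apply, nsmul_eq_mul, Pi.zero_apply] at h9
        exact (mul_eq_zero.1 h9).resolve_left hk'
      exact h8
    have h6 : (⟨x, h4⟩ : M) = 1 := hf (by rw [h5, map_one])
    exact congrArg Subtype.val h6

private theorem stable_iff {C W : (G : Type) → [Group G] → Prop} : Stable C W ↔ Pool.Agent.H50.GN.Cls C W := by
  constructor
  · intro h
    exact ⟨h.mem, h.sub, fun G _ hG => (h.roots G hG).1, fun G _ hG x y k hk hxy => (h.roots G hG).2 x y k hk hxy,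
      fun G Q _ _ f hG hf ⟨A, h1, h2, h3⟩ => h.quot G Q f A hG hf ⟨le_top, h1, fun g _ => h2 g⟩ h3⟩
  · intro h
    exact ⟨h.mem, fun G _ hG => ⟨h.tf G hG, fun x y k hk hxy => h.root G hG x y k hk hxy⟩, h.inj,
      fun G Q _ _ f A hG hf h1 h3 => h.quot G Q f hG hf ⟨A, h1.2.1, fun g a ha => h1.2.2 g (Subgroup.mem_top g) a ha, h3⟩⟩

private theorem tame_iff {C : (G : Type) → [Group G] → Prop} {H : Type} [Group H] :
    Tame C H ↔ Pool.Agent.H50.GN.Tame C H := by
  constructor
  · rintro ⟨W, hW, F, hF, h1, h2⟩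
    exact ⟨W, stable_iff.1 hW, F, hF, h1, h2⟩
  · rintro ⟨W, hW, F, hF, h1, h2⟩
    exact ⟨W, stable_iff.2 hW, F, hF, h1, h2⟩

private theorem nm {C : (G : Type) → [Group G] → Prop} {R : Type} [Group R] (h : NM C R) : Pool.Agent.H50.GN.NM C R :=
  ⟨h.1.1, h.2.1, fun x y k hk hxy => h.1.2 x y k hk hxy, fun K A h1 h2 h3 h4 => h.2.2 A K ⟨h1, h3, h4⟩ h2⟩

section

variable {C : (G : Type) → [Group G] → Prop}

theorem tame_prod (hC : Inherits C) (hE : Extension C) (hS : ∀ (G : Type) [Group G], Group.IsSolvable G → C G)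
    {U ι S : Type} [Finite U] [hι : Finite ι] (Γ : SimpleGraph U) (R : ι → Type) [∀ i, Group (R i)] [Group S]
    (hR : ∀ i, NM C (R i)) (hS2 : (TF S ∧ LocNil S) ∨ ∃ n, NTn n S) : Tame C (Raag Γ × (∀ i, R i) × S) := by
  obtain ⟨n, ⟨e⟩⟩ := Finite.exists_equiv_fin ι
  have h1 : Pool.Agent.H18.RG.WR C (Raag Γ) := Pool.Agent.H18.RG.raag_RR hC hE Γ
  have h3 : Pool.Agent.H50.GN.WQ S := by
    rcases hS2 with ⟨h0, h⟩ | ⟨n, h⟩
    · exact Pool.Agent.H50.GN.WN_WQ ⟨h0, h⟩
    · exact Pool.Agent.H50.GN.NT.wq ⟨n, ntn n S h⟩ (ntn_tf n S h)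
  obtain ⟨W, hW, -, hW1⟩ := Pool.Agent.H50.GN.exists_cls hC hS n
  have h4 : W ((∀ j : Fin n, R (e.symm j)) × (Raag Γ × S)) := by
    refine hW1 (fun j => R (e.symm j)) (Raag Γ × S) (fun j => nm (hR (e.symm j))) ?_
    exact ⟨Raag Γ, S, inferInstance, inferInstance, MonoidHom.id _, fun _ _ h => h, h1, h3⟩
  let ψ : Raag Γ × (∀ i, R i) × S →* (∀ j : Fin n, R (e.symm j)) × (Raag Γ × S) :=
    { toFun := fun x => (fun j => x.2.1 (e.symm j), (x.1, x.2.2))
      map_one' := rfl
      map_mul' := fun _ _ => rfl }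
  refine tame_iff.2 (Pool.Agent.H50.GN.tame_of hW (hW.inj _ _ ψ ?_ h4))
  intro x y hxy
  have h5 := Prod.ext_iff.1 hxy
  have h6 := Prod.ext_iff.1 h5.2
  refine Prod.ext h6.1 (Prod.ext (funext fun i => ?_) h6.2)
  obtain ⟨j, rfl⟩ := e.symm.surjective i
  exact congrFun h5.1 j

theorem tame_nil (hC : Inherits C) (hS : ∀ (G : Type) [Group G], Group.IsSolvable G → C G) {H : Type} [Group H]
    (h : LocNil H) : Tame C H :=
  tame_iff.2 (Pool.Agent.H50.GN.tame_nil hC hS h)

theorem tame_sub {G H : Type} [Group G] [Group H] (f : G →* H) (hf : Function.Injective f) (h : Tame C H) : Tame C G :=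
  tame_iff.2 (Pool.Agent.H50.GN.tame_inj f hf (tame_iff.1 h))

/-- tame groups are in the class: the action on one vertex -/
theorem tame_mem (hC : Inherits C) (hE : Extension C) (hT : Transfer C)
    (hS : ∀ (G : Type) [Group G], Group.IsSolvable G → C G) {H : Type} [Group H] (h : Tame C H) : C H := by
  letI : MulAction H Unit :=
    { smul := fun _ _ => ()
      one_smul := fun _ => rfl
      mul_smul := fun _ _ _ => rfl }
  refine Pool.Agent.H50.GN.tame_graphs (V := Unit) (X := (⊥ : SimpleGraph Unit)) hC hE hT hS ⟨?_, ?_⟩ ?_ ?_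
  · exact SimpleGraph.IsTree.of_subsingleton
  · intro g v w h
    exact h
  · intro v
    exact Pool.Agent.H50.GN.tame_inj (MulAction.stabilizer H v).subtype (Subgroup.subtype_injective _) (tame_iff.1 h)
  · intro v w h
    exact absurd h (by simp)

theorem criterion (hC : Inherits C) (hE : Extension C) (hT : Transfer C)
    (hS : ∀ (G : Type) [Group G], Group.IsSolvable G → C G) {G V : Type} [Group G] [MulAction G V]
    {X : SimpleGraph V} (hX : X.IsTree) (hadj : ∀ (g : G) (v w : V), X.Adj v w → X.Adj (g • v) (g • w))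
    (hv : ∀ v : V, C (MulAction.stabilizer G v))
    (he : ∀ v w : V, X.Adj v w → LVP (MulAction.stabilizer G v ⊓ MulAction.stabilizer G w : Subgroup G)) :
    C G ↔ ∀ v w : V, X.Adj v w → ∀ P : Subgroup G, P ≤ MulAction.stabilizer G v ⊓ MulAction.stabilizer G w → Infinite P →
      (∃ n, VPn n P) → C (commensurator P) ∨ Tame C (commensurator P ⊓ MulAction.stabilizer G v : Subgroup G) := by
  constructor
  · intro h v w _ P _ _ _
    exact Or.inl (hC.of_injective (commensurator P).subtype (Subgroup.subtype_injective _) h)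
  · intro h
    refine Pool.Agent.H50.GN.tame_loc hC hE hT hS ⟨hX, hadj⟩ hv (fun v w hvw => lvp (he v w hvw)) ?_
    rintro v w hvw P hP hi ⟨n, hn⟩
    rcases h v w hvw P hP hi ⟨n, (vpn_iff n P).2 hn⟩ with h1 | h1
    · exact Or.inl h1
    · exact Or.inr (tame_iff.1 h1)

end

end Pool.Agent.H50.GU
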